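import Mathlib

set_option autoImplicit false

namespace Pool.Agent.Results.MP_9bf48e_al.NotClosed

open Matrix Polynomial

section block
variable {K : Type} [Field K] {ι : Type} [Fintype ι] [DecidableEq ι]

theorem step1 {p q : ι} (h : p ≠ q) (a b c d x : K) :
    (1 + single p p a + single p q b + single q p c + single q q d : Matrix ι ι K)
        * transvection p q x =
      1 + single p p a + single p q (b + (1 + a) * x) + single q p c + single q q (d + c * x) := by
  simp only [transvection, mul_add, add_mul, mul_one, one_mul, single_mul_single_same,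
    single_mul_single_of_ne _ _ _ _ h.symm, single_add]
  abel

theorem step2 {p q : ι} (h : p ≠ q) (a b c d x : K) :
    (1 + single p p a + single p q b + single q p c + single q q d : Matrix ι ι K)
        * transvection q p x =
      1 + single p p (a + b * x) + single p q b + single q p (c + (1 + d) * x) + single q q d := by
  simp only [transvection, mul_add, add_mul, mul_one, one_mul, single_mul_single_same,
    single_mul_single_of_ne _ _ _ _ h, single_add]
  abel

theorem prod_eq {p q : ι} (h : p ≠ q) {u : K} (hu : u ^ 4 = -1) :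
    (transvection p q u * transvection q p (u ^ 3) * transvection p q u * transvection q p (-1)
      * transvection p q (-u) * transvection q p (-u ^ 3) * transvection p q (-u)
        : Matrix ι ι K) = transvection p q (u ^ 2) := by
  have e : ∀ x : K, (transvection p q x : Matrix ι ι K) =
      1 + single p p 0 + single p q x + single q p 0 + single q q 0 := fun x => by
    simp [transvection]
  rw [e (u ^ 2)]
  nth_rewrite 1 [e u]
  rw [step2 h, step1 h, step2 h, step1 h, step2 h, step1 h]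
  congr 1
  · congr 1
    · congr 1
      · congr 2
        linear_combination (-u ^ 5 - 2 * u) * hu
      · congr 1
        linear_combination (u ^ 6 + 3 * u ^ 2) * hu
    · congr 1
      linear_combination (-1 - u ^ 4) * hu
  · congr 1
    linear_combination (u ^ 5 + 2 * u) * hu

theorem exists_GL {p q : ι} (h : p ≠ q) (x : K) :
    ∃ g : GL ι K, (g : Matrix ι ι K) = transvection p q x :=
  ⟨⟨transvection p q x, transvection p q (-x),
    by rw [transvection_mul_transvection_same _ _ h]; simp,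
    by rw [transvection_mul_transvection_same _ _ h]; simp⟩, rfl⟩

end block

theorem exists_u : ∃ u : AlgebraicClosure ℚ, u ^ 4 = -1 ∧
    ∀ a b c d : ℤ, (a : AlgebraicClosure ℚ) + b * u + c * u ^ 2 + d * u ^ 3 = 0 → c = 0 := by
  obtain ⟨u, hu⟩ := IsAlgClosed.exists_pow_nat_eq (-1 : AlgebraicClosure ℚ) (n := 4) (by norm_num)
  refine ⟨u, hu, fun a b c d h => ?_⟩
  have hprim : IsPrimitiveRoot u 8 := by
    have h8 : u ^ 2 ^ (2 + 1) = 1 := by
      have : u ^ 2 ^ (2 + 1) = (u ^ 4) ^ 2 := by ring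
      rw [this, hu]; norm_num
    have h4 : ¬ u ^ 2 ^ 2 = 1 := by
      have : u ^ 2 ^ 2 = u ^ 4 := by norm_num
      rw [this, hu]; norm_num
    have := orderOf_eq_prime_pow (p := 2) h4 h8
    have h2 := IsPrimitiveRoot.orderOf u
    rw [this] at h2
    simpa using h2
  have hmin := cyclotomic_eq_minpoly_rat hprim (by norm_num)
  have hdeg : (minpoly ℚ u).degree = 4 := by
    rw [← hmin, degree_cyclotomic]; rfl
  by_contra hc
  set f : ℚ[X] := C (d : ℚ) * X ^ 3 + C (c : ℚ) * X ^ 2 + C (b : ℚ) * X + C (a : ℚ) with hf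
  have hf0 : f ≠ 0 := by
    intro h0
    have : f.coeff 2 = 0 := by rw [h0]; simp
    simp only [hf, coeff_add, coeff_C_mul, coeff_X_pow, coeff_X, coeff_C] at this
    simp at this
    exact hc this
  have hroot : aeval u f = 0 := by
    simp only [hf, map_add, map_mul, map_pow, aeval_X, map_intCast]
    linear_combination h
  have h1 := minpoly.degree_le_of_ne_zero ℚ u hf0 hroot
  have h2 : f.degree ≤ 3 := degree_cubic_le
  rw [hdeg] at h1
  exact absurd (h1.trans h2) (by decide)

/-- For every n at least 2 there is an irreducible elementary net of order n over the algebraic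
closure of the rationals, made of modules over the integers, that is not closed. -/
theorem result (n : ℕ) (hn : 2 ≤ n) :
    ∃ σ : Fin n → Fin n → Submodule ℤ (AlgebraicClosure ℚ),
      (∀ i j, i ≠ j → σ i j ≠ ⊥) ∧
      (∀ i r j, i ≠ r → r ≠ j → i ≠ j → ∀ a ∈ σ i r, ∀ b ∈ σ r j, a * b ∈ σ i j) ∧
      ∃ (i j : Fin n) (a : AlgebraicClosure ℚ), i ≠ j ∧ a ∉ σ i j ∧
        ∃ g ∈ Subgroup.closure {t : GL (Fin n) (AlgebraicClosure ℚ) |
            ∃ p q : Fin n, p ≠ q ∧ ∃ c ∈ σ p q,
              (t : Matrix (Fin n) (Fin n) (AlgebraicClosure ℚ)) = Matrix.transvection p q c},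
          (g : Matrix (Fin n) (Fin n) (AlgebraicClosure ℚ)) = Matrix.transvection i j a := by
  classical
  obtain ⟨u, hu, hind⟩ := exists_u
  let M : ℤ → ℤ → Submodule ℤ (AlgebraicClosure ℚ) := fun s t =>
    { carrier := {x | ∃ a b c d : ℤ, x = s * (a + b * u + t * c * u ^ 2 + d * u ^ 3)}
      add_mem' := by
        rintro _ _ ⟨a, b, c, d, rfl⟩ ⟨a', b', c', d', rfl⟩
        exact ⟨a + a', b + b', c + c', d + d', by push_cast; ring⟩
      zero_mem' := ⟨0, 0, 0, 0, by simp⟩
      smul_mem' := by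
        rintro k _ ⟨a, b, c, d, rfl⟩
        exact ⟨k * a, k * b, k * c, k * d, by rw [zsmul_eq_mul]; push_cast; ring⟩ }
  have hM : ∀ s t x, x ∈ M s t ↔
      ∃ a b c d : ℤ, x = s * (a + b * u + t * c * u ^ 2 + d * u ^ 3) := fun _ _ _ => Iff.rfl
  have hmul : ∀ a b c d a' b' c' d' : ℤ, ∃ x y z w : ℤ,
      ((a : AlgebraicClosure ℚ) + b * u + c * u ^ 2 + d * u ^ 3)
        * (a' + b' * u + c' * u ^ 2 + d' * u ^ 3) = x + y * u + z * u ^ 2 + w * u ^ 3 :=
    fun a b c d a' b' c' d' =>
      ⟨a * a' - b * d' - c * c' - d * b', a * b' + b * a' - c * d' - d * c',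
        a * c' + b * b' + c * a' - d * d', a * d' + b * c' + c * b' + d * a', by
          push_cast
          linear_combination ((b * d' + c * c' + d * b' : AlgebraicClosure ℚ)
            + (c * d' + d * c') * u + d * d' * u ^ 2) * hu⟩
  have hBB : ∀ x ∈ M 2 1, ∀ y ∈ M 2 1, x * y ∈ M 1 4 ∧ x * y ∈ M 2 1 := by
    rintro _ ⟨a, b, c, d, rfl⟩ _ ⟨a', b', c', d', rfl⟩
    obtain ⟨x, y, z, w, e⟩ := hmul a b c d a' b' c' d'
    exact ⟨⟨4 * x, 4 * y, z, 4 * w, by push_cast; linear_combination 4 * e⟩,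
      ⟨2 * x, 2 * y, 2 * z, 2 * w, by push_cast; linear_combination 4 * e⟩⟩
  have hAB : ∀ x ∈ M 1 4, ∀ y ∈ M 2 1, x * y ∈ M 2 1 := by
    rintro _ ⟨a, b, c, d, rfl⟩ _ ⟨a', b', c', d', rfl⟩
    obtain ⟨x, y, z, w, e⟩ := hmul a b (4 * c) d a' b' c' d'
    exact ⟨x, y, z, w, by push_cast at e ⊢; linear_combination 2 * e⟩
  set p : Fin n := ⟨0, by omega⟩ with hp
  set q : Fin n := ⟨1, by omega⟩ with hq
  have hpq : p ≠ q := by simp [hp, hq]
  let σ : Fin n → Fin n → Submodule ℤ (AlgebraicClosure ℚ) := fun i j =>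
    if i.val ≤ 1 ∧ j.val ≤ 1 then M 1 4 else M 2 1
  have hσpq : σ p q = M 1 4 := by simp [σ, hp, hq]
  have hσqp : σ q p = M 1 4 := by simp [σ, hp, hq]
  refine ⟨σ, fun i j _ => ?_, fun i r j hir hrj hij a ha b hb => ?_, p, q, u ^ 2, hpq, ?_, ?_⟩
  · intro h0
    have h2 : (2 : AlgebraicClosure ℚ) ∈ σ i j := by
      simp only [σ]
      split_ifs
      · exact ⟨2, 0, 0, 0, by simp⟩
      · exact ⟨1, 0, 0, 0, by simp⟩
    rw [h0, Submodule.mem_bot] at h2
    exact two_ne_zero h2
  · have h1 : i.val ≠ r.val := fun h => hir (Fin.ext h)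
    have h2 : r.val ≠ j.val := fun h => hrj (Fin.ext h)
    have h3 : i.val ≠ j.val := fun h => hij (Fin.ext h)
    simp only [σ] at ha hb ⊢
    split_ifs at ha hb ⊢ with c1 c2 c3 c4 c5 c6 c7
    all_goals first
      | omega
      | exact (hBB a ha b hb).1
      | exact (hBB a ha b hb).2
      | exact hAB a ha b hb
      | (rw [mul_comm]; exact hAB b hb a ha)
  · rw [hσpq, hM]
    rintro ⟨a, b, c, d, e⟩
    have := hind a b (4 * c - 1) d (by push_cast at e ⊢; linear_combination -e)
    omega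
  · have g12 : ∀ x ∈ M 1 4, ∃ g ∈ Subgroup.closure {t : GL (Fin n) (AlgebraicClosure ℚ) |
        ∃ p q : Fin n, p ≠ q ∧ ∃ c ∈ σ p q,
          (t : Matrix (Fin n) (Fin n) (AlgebraicClosure ℚ)) = Matrix.transvection p q c},
        (g : Matrix (Fin n) (Fin n) (AlgebraicClosure ℚ)) = transvection p q x := fun x hx => by
      obtain ⟨g, hg⟩ := exists_GL hpq x
      exact ⟨g, Subgroup.subset_closure ⟨p, q, hpq, x, hσpq ▸ hx, hg⟩, hg⟩
    have g21 : ∀ x ∈ M 1 4, ∃ g ∈ Subgroup.closure {t : GL (Fin n) (AlgebraicClosure ℚ) |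
        ∃ p q : Fin n, p ≠ q ∧ ∃ c ∈ σ p q,
          (t : Matrix (Fin n) (Fin n) (AlgebraicClosure ℚ)) = Matrix.transvection p q c},
        (g : Matrix (Fin n) (Fin n) (AlgebraicClosure ℚ)) = transvection q p x := fun x hx => by
      obtain ⟨g, hg⟩ := exists_GL hpq.symm x
      exact ⟨g, Subgroup.subset_closure ⟨q, p, hpq.symm, x, hσqp ▸ hx, hg⟩, hg⟩
    obtain ⟨g1, m1, e1⟩ := g12 u ⟨0, 1, 0, 0, by simp⟩
    obtain ⟨g2, m2, e2⟩ := g21 (u ^ 3) ⟨0, 0, 0, 1, by simp⟩
    obtain ⟨g3, m3, e3⟩ := g21 (-1) ⟨-1, 0, 0, 0, by simp⟩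
    obtain ⟨g4, m4, e4⟩ := g12 (-u) ⟨0, -1, 0, 0, by simp⟩
    obtain ⟨g5, m5, e5⟩ := g21 (-u ^ 3) ⟨0, 0, 0, -1, by simp⟩
    refine ⟨g1 * g2 * g1 * g3 * g4 * g5 * g4, ?_, ?_⟩
    · exact mul_mem (mul_mem (mul_mem (mul_mem (mul_mem (mul_mem m1 m2) m1) m3) m4) m5) m4
    · simp only [Units.val_mul, e1, e2, e3, e4, e5]
      exact prod_eq hpq hu

end Pool.Agent.Results.MP_9bf48e_al.NotClosed
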